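import Pool.Agent.Helper98.TA.Basic

/-!
Sheet TA (MP_7a8f48_an), row SGT: the stages exhaust the space.
-/

open MeasureTheory Filter Topology Finset
open scoped ComplexConjugate

namespace Pool.Agent.Helper60.TA

open Pool.Agent.Helper98.TW (SA jo bo cm AM UF BF Sys Lm IA LQ Inc sg Grp SM Sat al am_mono
  lq_of_le)
open Pool.Agent.Helper98.TA
open Pool.Agent.Helper40.TWM (St HQ)
open Pool.Agent.Helper98.GY (JY JJY)

theorem sg_mono {Ω : Type} {Φ Ψ : Set (Ω → ℂ)} (h : Φ ⊆ Ψ) :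
    @LE.le (MeasurableSpace Ω) _ (sg Φ) (sg Ψ) :=
  iSup₂_le fun φ hφ => le_iSup₂_of_le (α := MeasurableSpace Ω) φ (h hφ) le_rfl

theorem st_SGT (hSCH : ST_SCH) : ST_SGT := by
  intro Ω _ μ _ S S' u A N hS hT
  have key : ∀ k : ℕ, ∃ s : SA Ω, Sg μ S s ∧ @LE.le (MeasurableSpace Ω) _ (A k) s := by
    intro k
    induction k with
    | zero =>
      refine ⟨A 0, ?_, le_refl (α := MeasurableSpace Ω) _⟩
      have h := Sg.zero (μ := μ) (S := S)
      rwa [← hT.zero] at h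
    | succ k ih =>
      obtain ⟨s, hs, hle⟩ := ih
      obtain ⟨E, hE, hEs⟩ := hSCH Ω μ S S' u A N hS hT s (hs.ia (St.s1 hS))
      refine ⟨fr μ S E, Sg.succ s E hs hE hEs, ?_⟩
      have hAE : @LE.le (MeasurableSpace Ω) _ (A k) E :=
        le_trans (α := MeasurableSpace Ω) hle hE.le
      rw [hT.succ]
      refine jo_mono hAE (sg_mono ?_)
      intro φ hφ
      exact ⟨hφ.1, inc_mono (lq_of_le hAE)
        (inc_Pw (hT.ia (St.s1 hS) k) (St.s1 hS) (hT.uf k) (hT.inc k) φ hφ)⟩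
  obtain ⟨s, hs, hle⟩ := key N
  exact ⟨s, hs, fun f hf => am_mono hle (hT.top f hf)⟩

end Pool.Agent.Helper60.TA
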