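import Pool.Agent.Helper98.TA.Basic
import Pool.Agent.Helper73.TWR.Tool

/-!
Sheet TA (MP_7a8f48_an), row TKR: the Kronecker factor.
-/

open MeasureTheory Filter Topology Finset
open scoped ComplexConjugate

namespace Pool.Agent.Helper60.TA

open Pool.Agent.Helper98.TW (SA jo bo cm AM UF BF Sys Lm IA LQ Inc sg Grp SM Sat al am_mono
  lq_of_le am_bo lm_bo lq_bo ST_LZ)
open Pool.Agent.Helper98.TA
open Pool.Agent.Helper40.TWM (St HQ)
open Pool.Agent.Helper98.GY (JY JJY)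

section

variable {Ω : Type} [m0 : MeasurableSpace Ω] {μ : Measure Ω} [IsProbabilityMeasure μ]
  {S S' : Ω → Ω}

theorem int_ce {𝒜 : SA Ω} {F : Ω → ℂ} (hA : Lm 𝒜) : ∫ x, (μ[F|𝒜]) x ∂μ = ∫ x, F x ∂μ := by
  have hle : @LE.le (MeasurableSpace Ω) _ 𝒜 m0 := hA
  have : IsFiniteMeasure (μ.trim hle) := isFiniteMeasure_trim hle
  have : SigmaFinite (μ.trim hle) := IsFiniteMeasure.toSigmaFinite _
  exact integral_condExp hle

theorem memLp_uf_mul {φ F : Ω → ℂ} (hφ : UF μ φ) (hF : BF F) :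
    MemLp (fun x => φ x * F x) 2 μ := by
  obtain ⟨hFm, B, hB⟩ := hF
  refine MemLp.of_bound (hφ.1.mul hFm).aestronglyMeasurable B ?_
  filter_upwards [hφ.2] with x hx
  rw [norm_mul, hx, one_mul]
  exact hB x

/-- functions in an extension: it is enough to consider the products -/
theorem tv_of_prod (hTEX : ST_TEX) (hTCL : ST_TCL) (hS : Sys μ S S') {E : SA Ω}
    {Φ : Set (Ω → ℂ)} (hE : Lm E) (hΦ : Grp μ Φ)
    (h : ∀ φ ∈ Φ, ∀ F : Ω → ℂ, BF F → AM μ E F → TV μ S S' (fun x => φ x * F x))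
    {G : Ω → ℂ} (hG : MemLp G 2 μ) (hm : AM μ (jo E (sg Φ)) G) : TV μ S S' G := by
  obtain ⟨-, cAdd, -, cConst, cClos⟩ := hTCL Ω μ S S' hS
  refine cClos G hG fun ε hε => ?_
  obtain ⟨m, φ, F, hφ, hF, hle⟩ := hTEX Ω μ E Φ G ε hE hΦ hG hm hε
  have key : ∀ s : Finset (Fin m), MemLp (fun x => ∑ i ∈ s, φ i x * F i x) 2 μ ∧
      TV μ S S' (fun x => ∑ i ∈ s, φ i x * F i x) := by
    intro s
    classical
    induction s using Finset.induction_on with
    | empty =>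
      simp only [Finset.sum_empty]
      exact ⟨memLp_const 0, cConst 0⟩
    | insert a s ha ih =>
      simp only [Finset.sum_insert ha]
      have h1 := memLp_uf_mul (hΦ.uf _ (hφ a)) (hF a).1
      exact ⟨h1.add ih.1, cAdd _ _ h1 ih.1 (h _ (hφ a) _ (hF a).1 (hF a).2) ih.2⟩
  exact ⟨_, (key Finset.univ).1, (key Finset.univ).2, hle⟩

end

theorem st_TKR (hTEX : ST_TEX) (hTDV : ST_TDV) (hTCL : ST_TCL) (hLZ : ST_LZ) : ST_TKR := by
  intro Ω _ μ _ S S' u A N hS hT G hG hAM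
  obtain ⟨cCong, -, cMul, cConst, -⟩ := hTCL Ω μ S S' (St.s1 hS)
  refine tv_of_prod hTEX hTCL (St.s1 hS) lm_bo grp_Ga ?_ hG hAM
  rintro φ ⟨hφ, hi⟩ F hF hFm
  obtain ⟨c, hc⟩ := am_bo.1 hFm
  have h1 : TV μ S S' φ := by
    by_cases ha : AM μ bo φ
    · obtain ⟨c, hc⟩ := am_bo.1 ha
      exact cCong (fun _ => c) φ (cConst c) hc.symm
    · obtain ⟨q₀, hq⟩ := hTDV Ω μ S S' u A N hS hT φ hφ hi ha
      intro ε hε
      refine ⟨q₀, fun q hqq hqp D hD => ?_⟩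
      have hn : ¬ AM μ D φ := fun h => hq q hqq hqp (hD.2 φ hφ hi h)
      have hz : μ[φ|D] =ᵐ[μ] 0 := (hLZ Ω μ S S' D φ (St.s1 hS) (St.e1 hS) hD.1 hφ
        (inc_mono lq_bo hi)).resolve_right hn
      have hint : ∫ y, φ y ∂μ = 0 := by
        rw [← int_ce hD.1.1, integral_congr_ae hz]
        simp
      have h0 : ∫ x, ‖(μ[φ|D]) x - ∫ y, φ y ∂μ‖ ^ 2 ∂μ = 0 := by
        have : (fun x => ‖(μ[φ|D]) x - ∫ y, φ y ∂μ‖ ^ 2) =ᵐ[μ] fun _ => (0 : ℝ) := by
          filter_upwards [hz] with x hx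
          rw [hx, hint]
          simp
        rw [integral_congr_ae this]
        simp
      rw [h0]
      exact hε.le
  have h2 : MemLp φ 2 μ := by
    refine MemLp.of_bound hφ.1.aestronglyMeasurable 1 ?_
    filter_upwards [hφ.2] with x hx
    exact hx.le
  refine cCong _ _ (cMul c φ h2 h1) ?_
  filter_upwards [hc] with x hx
  rw [hx, mul_comm]

end Pool.Agent.Helper60.TA
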