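import Pool.Agent.Helper60.TA.TKR

/-!
Sheet TA (MP_7a8f48_an), row TST: one step.
-/

open MeasureTheory Filter Topology Finset
open scoped ComplexConjugate

namespace Pool.Agent.Helper60.TA

open Pool.Agent.Helper98.TW (SA jo bo cm AM UF BF Sys Lm IA LQ Inc sg Grp SM Sat al am_mono
  lq_of_le am_bo lm_bo lq_bo am_congr am_mul am_conj am_sub ae_comp ia_bo exists_uf)
open Pool.Agent.Helper98.TA
open Pool.Agent.Helper40.TWM (St HQ)
open Pool.Agent.Helper98.GY (JY JJY)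

section

variable {Ω : Type} [m0 : MeasurableSpace Ω] {μ : Measure Ω} [IsProbabilityMeasure μ]
  {S S' : Ω → Ω}

theorem bf_memLp {F : Ω → ℂ} (hF : BF F) : MemLp F 2 μ := by
  obtain ⟨hFm, B, hB⟩ := hF
  exact MemLp.of_bound hFm.aestronglyMeasurable B (ae_of_all _ hB)

theorem bf_integrable {F : Ω → ℂ} (hF : BF F) : Integrable F μ := by
  obtain ⟨hFm, B, hB⟩ := hF
  exact Integrable.of_bound hFm.aestronglyMeasurable B (ae_of_all _ hB)

theorem bf_sub {F G : Ω → ℂ} (hF : BF F) (hG : BF G) : BF (fun x => F x - G x) := by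
  obtain ⟨hFm, B, hB⟩ := hF
  obtain ⟨hGm, C, hC⟩ := hG
  exact ⟨hFm.sub hGm, B + C, fun x => (norm_sub_le _ _).trans (add_le_add (hB x) (hC x))⟩

end

theorem st_TST (hTEX : ST_TEX) (hTKR : ST_TKR) (hTKG : ST_TKG) (hTVC : ST_TVC) (hWAL : ST_WAL)
    (hTCL : ST_TCL) (hTER : ST_TER) : ST_TST := by
  intro Ω _ μ _ S S' u A N k hS hT ih G hG hAM
  have hS1 := St.s1 hS
  have hAk : IA μ (A k) S S' := hT.ia hS1 k
  obtain ⟨cCong, cAdd, -, -, -⟩ := hTCL Ω μ S S' hS1
  rw [hT.succ] at hAM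
  refine tv_of_prod hTEX hTCL hS1 hAk.1 (grp_Pw (hT.uf k)) ?_ hG hAM
  intro φ₀ hφ₀ F hF hFm
  have hi₀ : Inc μ (A k) S φ₀ := inc_Pw hAk hS1 (hT.uf k) (hT.inc k) φ₀ hφ₀
  obtain ⟨φ, hφ, hφ1, -, hφe⟩ := exists_uf (𝒜 := (inferInstance : MeasurableSpace Ω))
    (le_refl (α := MeasurableSpace Ω) _) hφ₀.1.1.aestronglyMeasurable hφ₀.1.2
  have hi : Inc μ (A k) S φ := Pool.Agent.Helper98.TW.Inc.congr hS1.mp hi₀ hφe
  -- the function and its projection to the Kronecker factor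
  have hG0 : BF (fun x => φ x * F x) := by
    obtain ⟨hFm', B, hB⟩ := hF
    refine ⟨hφ.1.mul hFm', B, fun x => ?_⟩
    rw [norm_mul, hφ1, one_mul]
    exact hB x
  set G0 : Ω → ℂ := fun x => φ x * F x with hG0d
  have hK : Lm (fr μ S bo) := (ia_fr hS1 (ia_bo hS1)).1
  obtain ⟨G1, hG1, hG1m, hG1e'⟩ := Pool.Agent.Helper73.TWR.ce_bf (μ := μ) hK hG0
  have hG1e := hG1e'.symm
  have hGc : BF (fun x => G0 x - G1 x) := bf_sub hG0 hG1
  set Gc : Ω → ℂ := fun x => G0 x - G1 x with hGcd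
  have hc0 : AM μ (A k) (fun x => conj (φ x) * G0 x) := by
    refine am_congr hFm ?_
    filter_upwards [hφ.conj_mul] with x hx
    rw [hG0d]
    simp only
    rw [← mul_assoc, hx, one_mul]
  have hc1 : AM μ (A k) (fun x => conj (φ x) * G1 x) := by
    refine am_congr (hTKG Ω μ S S' (A k) φ G0 hS hAk hφ hi hG0 hc0) ?_
    filter_upwards [hG1e] with x hx
    rw [hx]
  have hcc : AM μ (A k) (fun x => conj (φ x) * Gc x) := by
    refine am_congr (am_sub hc0 hc1) (Eventually.of_forall fun x => ?_)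
    simp only [hGcd]
    ring
  have hce : μ[Gc|fr μ S bo] =ᵐ[μ] 0 := by
    have e1 := Pool.Agent.Helper73.TWR.ce_sub (μ := μ) (𝒜 := fr μ S bo) (bf_integrable hG0)
      (bf_integrable hG1)
    have e2 := Pool.Agent.Helper73.TWR.ce_of_am hK (bf_integrable (μ := μ) hG1) hG1m
    filter_upwards [e1, e2, hG1e] with x h1 h2 h3
    rw [h1, h2, h3]
    simp
  have hint : ∫ x, Gc x ∂μ = 0 := by
    rw [← int_ce hK, integral_congr_ae hce]
    simp
  have hA0 : A0 μ bo S Gc := by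
    have := hWAL Ω μ S S' u A N bo Gc hS hT (ia_bo hS1) (hTER Ω μ S S' hS).1 hGc hce 1 le_rfl
    simpa using this
  have hTVc : TV μ S S' Gc := by
    refine hTVC Ω μ S S' Gc hS hGc hint hA0 fun m n => ?_
    refine ih _ ?_ ?_
    · obtain ⟨hm, B, hB⟩ := hGc
      refine bf_memLp ⟨(hm.comp (hS.sys m).mp.measurable).mul
        (Complex.continuous_conj.measurable.comp (hm.comp (hS.sys n).mp.measurable)),
        B * B, fun x => ?_⟩
      rw [norm_mul, RCLike.norm_conj]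
      exact mul_le_mul (hB _) (hB _) (norm_nonneg _) ((norm_nonneg _).trans (hB x))
    · have a1 := ((hAk.iterate m).2 _ hcc).1
      have a2 := am_conj ((hAk.iterate n).2 _ hcc).1
      have b1 := inc_iter hAk hS1 hφ hi m
      have b2 := am_conj (inc_iter hAk hS1 hφ hi n)
      refine am_congr (am_mul (am_mul a1 a2) (am_mul b1 b2)) ?_
      filter_upwards [hφ.mul_conj, ae_comp (hS.sys m).mp hφ.mul_conj,
        ae_comp (hS.sys n).mp hφ.mul_conj] with x h0 hm hn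
      simp only [map_mul, Complex.conj_conj]
      linear_combination (Gc (S^[m] x) * conj (Gc (S^[n] x)) * (φ x * conj (φ x)) *
          (φ (S^[m] x) * conj (φ (S^[m] x)))) * hn +
        (Gc (S^[m] x) * conj (Gc (S^[n] x)) * (φ x * conj (φ x))) * hm +
        (Gc (S^[m] x) * conj (Gc (S^[n] x))) * h0
  have hTV1 : TV μ S S' G1 := hTKR Ω μ S S' u A N hS hT G1 (bf_memLp hG1) hG1m
  refine cCong _ _ (cAdd _ _ (bf_memLp hGc) (bf_memLp hG1) hTVc hTV1) ?_
  filter_upwards [hφe] with x hx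
  simp only [hGcd, hG0d]
  rw [hx]
  ring

end Pool.Agent.Helper60.TA
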